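import Pool.Agent.Zk40.W.Final

/-!
# MP_45c923_nt, Q1: the linear order of magnitude of Waring's function at almost every real exponent

For a real `θ` let `G θ` be the least `s` such that every large integer is a sum of `s` numbers `⌊x ^ θ⌋`, `x` a
natural number. At a natural number `k` this is Waring's function `G(k)`. We prove `θ ≤ G θ ≤ 4 ⌈θ log 2⌉ + 2` (so
`G θ ≤ 2.8 θ + 6`) for almost every real `θ > 1`.
-/

namespace Pool.Agent.Results.MP_45c923_nt.AlmostAllExponents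

open Finset MeasureTheory Filter
open Pool.Agent.Zk40.W (wt Vw all_large ae_energy)

/-- Every sufficiently large natural number is a sum of `s` numbers `⌊x ^ θ⌋` with natural numbers `x`. -/
def Represents (θ : ℝ) (s : ℕ) : Prop :=
  ∃ n₀ : ℕ, ∀ n : ℕ, n₀ ≤ n → ∃ x : Fin s → ℕ, n = ∑ i, ⌊(x i : ℝ) ^ θ⌋₊

/-- Waring's function with a real exponent: the least `s` such that `Represents θ s`. -/
noncomputable def G (θ : ℝ) : ℕ := sInf {s | Represents θ s}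

lemma rep_nat (k s : ℕ) : Represents (k : ℝ) s ↔ ∃ n₀ : ℕ, ∀ n : ℕ, n₀ ≤ n → ∃ x : Fin s → ℕ, n = ∑ i, x i ^ k := by
  unfold Represents
  have h : ∀ x : ℕ, ⌊(x : ℝ) ^ (k : ℝ)⌋₊ = x ^ k := by
    intro x
    rw [Real.rpow_natCast, ← Nat.cast_pow, Nat.floor_natCast]
  simp_rw [h]

lemma rep_lower (θ : ℝ) (hθ : 1 ≤ θ) (s : ℕ) (h : Represents θ s) : θ ≤ s := by
  by_contra hcon
  push Not at hcon
  obtain ⟨n₀, hn₀⟩ := h
  have hθ0 : 0 < θ := by linarith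
  have hq : 0 < 1 - s / θ := by
    rw [sub_pos, div_lt_one hθ0]; exact hcon
  have ht : Tendsto (fun t : ℕ => ((t : ℕ) : ℝ) ^ (1 - s / θ)) atTop atTop :=
    (tendsto_rpow_atTop hq).comp tendsto_natCast_atTop_atTop
  obtain ⟨t, ht1, ht2⟩ := ((ht.eventually_ge_atTop ((2 : ℝ) ^ s + n₀ + 1)).and (eventually_ge_atTop (n₀ + 1))).exists
  have ht0 : (1 : ℝ) ≤ t := by
    have : 1 ≤ t := by omega
    exact_mod_cast this
  have htp : (0 : ℝ) < t := by linarith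
  set K := ⌊(t : ℝ) ^ (1 / θ)⌋₊ with hK
  choose! x hx using hn₀
  have hbd : ∀ n ∈ Ico n₀ t, ∀ i, x n i ≤ K := by
    intro n hn i
    rw [mem_Ico] at hn
    have h1 := hx n hn.1
    have h2 : ⌊(x n i : ℝ) ^ θ⌋₊ ≤ n := by
      conv_rhs => rw [h1]
      exact single_le_sum (f := fun i => ⌊(x n i : ℝ) ^ θ⌋₊) (fun _ _ => Nat.zero_le _) (mem_univ i)
    have h3 : (x n i : ℝ) ^ θ < t := by
      have h4 := Nat.lt_floor_add_one ((x n i : ℝ) ^ θ)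
      have h5 : ((⌊(x n i : ℝ) ^ θ⌋₊ + 1 : ℕ) : ℝ) ≤ t := by
        have : ⌊(x n i : ℝ) ^ θ⌋₊ + 1 ≤ t := by omega
        exact_mod_cast this
      push_cast at h5
      linarith
    apply Nat.le_floor
    have h6 := Real.rpow_le_rpow (by positivity) h3.le (show 0 ≤ 1 / θ by positivity)
    rwa [← Real.rpow_mul (Nat.cast_nonneg _), mul_one_div_cancel hθ0.ne', Real.rpow_one] at h6
  have hcard : (Ico n₀ t).card ≤ (Fintype.piFinset fun _ : Fin s => range (K + 1)).card := by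
    apply card_le_card_of_injOn (fun n => x n)
    · intro n hn
      rw [mem_coe, Fintype.mem_piFinset]
      intro i
      rw [mem_range]
      exact Nat.lt_succ_of_le (hbd n hn i)
    · intro a ha b hb hab
      rw [mem_coe, mem_Ico] at ha hb
      have h1 := hx a ha.1
      have h2 := hx b hb.1
      simp only at hab
      rw [h1, h2, hab]
  rw [Nat.card_Ico, Fintype.card_piFinset] at hcard
  simp only [card_range, prod_const, card_univ, Fintype.card_fin] at hcard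
  have h7 : ((t - n₀ : ℕ) : ℝ) ≤ ((K : ℝ) + 1) ^ s := by exact_mod_cast hcard
  rw [Nat.cast_sub (by omega)] at h7
  have hKle : (K : ℝ) + 1 ≤ 2 * (t : ℝ) ^ (1 / θ) := by
    have h8 : (K : ℝ) ≤ (t : ℝ) ^ (1 / θ) := Nat.floor_le (by positivity)
    have h9 : 1 ≤ (t : ℝ) ^ (1 / θ) := Real.one_le_rpow ht0 (by positivity)
    linarith
  have h10 : ((K : ℝ) + 1) ^ s ≤ 2 ^ s * (t : ℝ) ^ (s / θ) := by
    calc ((K : ℝ) + 1) ^ s ≤ (2 * (t : ℝ) ^ (1 / θ)) ^ s := pow_le_pow_left₀ (by positivity) hKle s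
      _ = 2 ^ s * (t : ℝ) ^ (s / θ) := by
        rw [mul_pow, ← Real.rpow_natCast ((t : ℝ) ^ (1 / θ)), ← Real.rpow_mul htp.le]
        congr 2
        ring
  have h11 : (t : ℝ) = (t : ℝ) ^ (s / θ) * (t : ℝ) ^ (1 - s / θ) := by
    rw [← Real.rpow_add htp]; simp
  have h12 : 1 ≤ (t : ℝ) ^ (s / θ) := Real.one_le_rpow ht0 (by positivity)
  have h13 : (t : ℝ) ^ (s / θ) * ((2 : ℝ) ^ s + n₀ + 1) ≤ t := by
    conv_rhs => rw [h11]
    exact mul_le_mul_of_nonneg_left ht1 (by positivity)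
  have h14 : (n₀ : ℝ) + 1 ≤ (t : ℝ) ^ (s / θ) * ((n₀ : ℝ) + 1) := le_mul_of_one_le_left (by positivity) h12
  nlinarith

lemma rep_type (θ : ℝ) {ι : Type} [Fintype ι] (f : ι → ℕ) (s : ℕ) (h : Fintype.card ι = s) :
    ∃ x : Fin s → ℕ, ∑ i, ⌊(x i : ℝ) ^ θ⌋₊ = ∑ i, wt θ (f i) := by
  refine ⟨fun i => f ((Fintype.equivFinOfCardEq h).symm i), ?_⟩
  exact Equiv.sum_comp (Fintype.equivFinOfCardEq h).symm (fun i => wt θ (f i))

lemma rep_of (θ : ℝ) (u : ℕ)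
    (h : ∃ N₀ : ℕ, ∀ N ≥ N₀, ∃ (x y : Fin u → ℕ × ℕ) (z₁ z₂ : ℕ), Vw θ x + Vw θ y + (wt θ z₁ + wt θ z₂) = N) :
    Represents θ (4 * u + 2) := by
  obtain ⟨N₀, hN₀⟩ := h
  refine ⟨N₀, fun n hn => ?_⟩
  obtain ⟨x, y, z₁, z₂, he⟩ := hN₀ n hn
  obtain ⟨t, ht⟩ := rep_type θ (ι := ((Fin u ⊕ Fin u) ⊕ (Fin u ⊕ Fin u)) ⊕ (Unit ⊕ Unit))
    (Sum.elim (Sum.elim (Sum.elim (fun i => (x i).1) (fun i => (x i).2)) (Sum.elim (fun i => (y i).1) (fun i => (y i).2)))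
      (Sum.elim (fun _ => z₁) (fun _ => z₂))) (4 * u + 2) (by simp; ring)
  refine ⟨t, ?_⟩
  rw [ht, ← he]
  simp only [Fintype.sum_sum_type, Sum.elim_inl, Sum.elim_inr, univ_unique, sum_singleton]
  unfold Vw
  rw [sum_add_distrib, sum_add_distrib]

lemma u_ok (θ : ℝ) (hθ : 1 < θ) : (1 - 1 / θ) ^ ⌈θ * Real.log 2⌉₊ < 1 / 2 := by
  have hθ0 : 0 < θ := by linarith
  have hlog : 0 < Real.log 2 := Real.log_pos (by norm_num)
  set u := ⌈θ * Real.log 2⌉₊ with hu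
  have hu1 : θ * Real.log 2 ≤ u := Nat.le_ceil _
  have hu0 : 0 < (u : ℝ) := lt_of_lt_of_le (by positivity) hu1
  have hune : u ≠ 0 := by
    intro h; rw [h] at hu0; simp at hu0
  have h1 : 1 - 1 / θ < Real.exp (-(1 / θ)) := by
    have := Real.add_one_lt_exp (show -(1 / θ) ≠ 0 by
      have : 0 < 1 / θ := by positivity
      linarith)
    linarith
  have h0 : 0 ≤ 1 - 1 / θ := by
    rw [sub_nonneg, div_le_one hθ0]; exact hθ.le
  calc (1 - 1 / θ) ^ u < (Real.exp (-(1 / θ))) ^ u := pow_lt_pow_left₀ h1 h0 hune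
    _ = Real.exp (-(u / θ)) := by
      rw [← Real.exp_nat_mul]; congr 1; ring
    _ ≤ Real.exp (-Real.log 2) := by
      apply Real.exp_le_exp.2
      have : Real.log 2 ≤ u / θ := by rw [le_div_iff₀ hθ0]; linarith
      linarith
    _ = 1 / 2 := by
      rw [Real.exp_neg, Real.exp_log (by norm_num)]; norm_num

/-- At a natural number `k` the notion is the one of Waring's problem; `s ≥ θ` is necessary for every real `θ ≥ 1`; and
for almost every real `θ > 1` every large integer is a sum of `4 ⌈θ log 2⌉ + 2 ≤ 2.8 θ + 6` numbers `⌊x ^ θ⌋`. So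
`θ ≤ G θ ≤ 2.8 θ + 6` for almost every real `θ > 1`. -/
theorem result :
    (∀ k s : ℕ, Represents (k : ℝ) s ↔ ∃ n₀ : ℕ, ∀ n : ℕ, n₀ ≤ n → ∃ x : Fin s → ℕ, n = ∑ i, x i ^ k) ∧
    (∀ θ : ℝ, 1 ≤ θ → ∀ s : ℕ, Represents θ s → θ ≤ s) ∧
    (∀ᵐ θ : ℝ, 1 < θ → Represents θ (4 * ⌈θ * Real.log 2⌉₊ + 2) ∧
      θ ≤ G θ ∧ G θ ≤ 4 * ⌈θ * Real.log 2⌉₊ + 2 ∧ (G θ : ℝ) ≤ 14 / 5 * θ + 6) := by
  refine ⟨rep_nat, rep_lower, ?_⟩
  have h1 : ∀ᵐ θ : ℝ, ∀ m : ℕ, θ ≠ m := by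
    rw [ae_all_iff]
    intro m
    exact Measure.ae_ne volume (m : ℝ)
  have h2 : ∀ᵐ θ : ℝ, ∀ u : ℕ, 1 ≤ u → 1 < θ → (1 - 1 / θ) ^ u < 1 / 2 → ∀ τ : ℝ, 0 < τ → ∃ κ : ℝ, 0 ≤ κ ∧ κ ≤ 1 ∧
      ∀ᶠ j : ℕ in atTop, Pool.Agent.Zk40.W.En θ κ (2 * u) (2 ^ j) u ≤
      ((Pool.Agent.Zk40.W.Y (Pool.Agent.Zk40.W.Qs κ (2 ^ j)) u).card : ℝ) ^ 2 * ((2 ^ j : ℕ) : ℝ) ^ (-θ + τ) := by
    rw [ae_all_iff]
    intro u
    by_cases hu : 1 ≤ u
    · filter_upwards [ae_energy u hu (2 * u) (by positivity)] with θ hθ _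
      exact hθ
    · exact ae_of_all _ fun θ h3 => absurd h3 hu
  filter_upwards [h1, h2] with θ hn hE hθ
  have hθ0 : 0 < θ := by linarith
  have hlog : 0 < Real.log 2 := Real.log_pos (by norm_num)
  set u := ⌈θ * Real.log 2⌉₊ with hu
  have hu1 : 1 ≤ u := Nat.one_le_iff_ne_zero.2 (by
    rw [hu]
    exact (Nat.ceil_pos.2 (by positivity)).ne')
  have hrep : Represents θ (4 * u + 2) := rep_of θ u (all_large θ hθ hn u (hE u hu1 hθ (u_ok θ hθ)))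
  have hne : {s | Represents θ s}.Nonempty := ⟨_, hrep⟩
  have hG1 : Represents θ (G θ) := Nat.sInf_mem hne
  have hG2 : G θ ≤ 4 * u + 2 := Nat.sInf_le hrep
  refine ⟨hrep, rep_lower θ hθ.le _ hG1, hG2, ?_⟩
  have h3 : (G θ : ℝ) ≤ 4 * u + 2 := by exact_mod_cast hG2
  have h4 : (u : ℝ) < θ * Real.log 2 + 1 := Nat.ceil_lt_add_one (by positivity)
  have h5 : Real.log 2 ≤ 7 / 10 := by linarith [Real.log_two_lt_d9]
  have h6 : θ * Real.log 2 ≤ θ * (7 / 10) := mul_le_mul_of_nonneg_left h5 hθ0.le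
  linarith

end Pool.Agent.Results.MP_45c923_nt.AlmostAllExponents
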