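import Pool.Agent.Zk40.D.All

set_option autoImplicit false

/-!
# MP_45c923_nt, Q1: `O(k)` `k`-th powers and two elements of a dilate of an arbitrary set

Let `B` be any set of natural numbers with at least `N ^ γ` elements up to `N`, for all large `N`, where `0 < γ < 1`.
For almost every real `x > 0` and all `k ≥ 2` every large integer is a sum of `2 ⌈k log (1 / γ)⌉ + 1` `k`-th powers
(genuine ones: the dilation is not applied to them) and of two numbers `⌊x b⌋`, `⌊x b'⌋` with `b, b' ∈ B`.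

In particular `B` can be the set of the sums of `⌈ε k⌉` `k`-th powers: for almost every `x > 0`, all `k ≥ 2` and all
`0 < ε < 1` every large integer is a sum of `2 ⌈k log (2 / ε)⌉ + 1` `k`-th powers and of two numbers `⌊x y⌋`, `⌊x y'⌋`,
where `y, y'` are sums of `⌈ε k⌉` `k`-th powers. For `x = 1` this is the conjecture `G(k) = O(k)`.
-/

namespace Pool.Agent.Results.MP_45c923_nt.DilatedSets

open Filter MeasureTheory

/-- Every large natural number is a sum of `s` `k`-th powers of natural numbers and of two numbers `⌊x b⌋`, `⌊x b'⌋`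
with `b, b' ∈ B`. -/
def Rep (B : Set ℕ) (x : ℝ) (k s : ℕ) : Prop :=
  ∃ n₀ : ℕ, ∀ n : ℕ, n₀ ≤ n → ∃ (t : Fin s → ℕ) (b b' : ℕ), b ∈ B ∧ b' ∈ B ∧
    n = ∑ i, t i ^ k + ⌊x * b⌋₊ + ⌊x * b'⌋₊

/-- The sums of `v` `m`-th powers of natural numbers. -/
def Sums (m v : ℕ) : Set ℕ := {n | ∃ y : Fin v → ℕ, ∑ i, y i ^ m = n}

lemma pow_lt (k u : ℕ) (hk : 2 ≤ k) (hu : 1 ≤ u) (c : ℝ) (hc : 0 < c) (h : k * Real.log (1 / c) ≤ u) :
    (1 - 1 / (k : ℝ)) ^ u < c := by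
  have hk0 : (0 : ℝ) < k := by exact_mod_cast (by omega : 0 < k)
  have hk1 : (1 : ℝ) ≤ k := by exact_mod_cast (by omega : 1 ≤ k)
  have h1 : 1 - 1 / (k : ℝ) < Real.exp (-(1 / (k : ℝ))) := by
    have : -(1 / (k : ℝ)) ≠ 0 := by
      have : 0 < 1 / (k : ℝ) := by positivity
      linarith
    have := Real.add_one_lt_exp this
    linarith
  have h0 : 0 ≤ 1 - 1 / (k : ℝ) := by
    rw [sub_nonneg, div_le_one hk0]; exact hk1
  calc (1 - 1 / (k : ℝ)) ^ u < (Real.exp (-(1 / (k : ℝ)))) ^ u := pow_lt_pow_left₀ h1 h0 (by omega)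
    _ = Real.exp (-(u / k)) := by
      rw [← Real.exp_nat_mul]; congr 1; ring
    _ ≤ Real.exp (-Real.log (1 / c)) := by
      apply Real.exp_le_exp.2
      have : Real.log (1 / c) ≤ u / k := by rw [le_div_iff₀ hk0]; linarith
      linarith
    _ = c := by rw [Real.exp_neg, Real.exp_log (by positivity)]; simp

lemma rep_of (B : Set ℕ) (x : ℝ) (k s : ℕ) (h : ∃ N₀ : ℕ, ∀ N ≥ N₀, ∃ t b b' : ℕ,
    Pool.Agent.Zk40.D.IsSum k s t ∧ b ∈ B ∧ b' ∈ B ∧ t + ⌊x * b⌋₊ + ⌊x * b'⌋₊ = N) : Rep B x k s := by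
  obtain ⟨N₀, h⟩ := h
  refine ⟨N₀, fun n hn => ?_⟩
  obtain ⟨t, b, b', ⟨y, _, hy⟩, hb, hb', he⟩ := h n hn
  exact ⟨y, b, b', hb, hb', by rw [hy, he]⟩

lemma Rep.mono {B B' : Set ℕ} {x : ℝ} {k s : ℕ} (h : Rep B x k s) (hB : B ⊆ B') : Rep B' x k s := by
  obtain ⟨n₀, h⟩ := h
  refine ⟨n₀, fun n hn => ?_⟩
  obtain ⟨t, b, b', hb, hb', he⟩ := h n hn
  exact ⟨t, b, b', hB hb, hB hb', he⟩

/-- (1) Let `0 < γ < 1` and let `B` be a set of natural numbers with at least `N ^ γ` elements in `[1, N]` for all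
large `N`. For almost every real `x > 0` and all `k ≥ 2` every large integer is a sum of `2 ⌈k log (1 / γ)⌉ + 1` `k`-th
powers and two numbers `⌊x b⌋` with `b ∈ B`; and `2 u + 1` `k`-th powers are enough if `(1 - 1 / k) ^ u < γ`.

(2) For almost every real `x > 0` and all `k, m ≥ 2` and `u, v ≥ 1` with `(1 - 1 / k) ^ u + (1 - 1 / m) ^ v < 1` every
large integer is a sum of `2 u + 1` `k`-th powers and of two numbers `⌊x y⌋` with `y` a sum of `v` `m`-th powers.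

(3) For almost every real `x > 0`, all `k ≥ 2` and all `0 < ε < 1` every large integer is a sum of
`2 ⌈k log (2 / ε)⌉ + 1` `k`-th powers and of two numbers `⌊x y⌋` with `y` a sum of `⌈ε k⌉` `k`-th powers. -/
theorem result :
    (∀ (B : Set ℕ) (γ : ℝ), 0 < γ → γ < 1 →
      (∀ᶠ N : ℕ in atTop, (N : ℝ) ^ γ ≤ ((B ∩ Set.Icc 1 N).ncard : ℝ)) →
      ∀ᵐ x : ℝ, 0 < x → ∀ k : ℕ, 2 ≤ k → Rep B x k (2 * ⌈(k : ℝ) * Real.log (1 / γ)⌉₊ + 1) ∧
        ∀ u : ℕ, (1 - 1 / (k : ℝ)) ^ u < γ → Rep B x k (2 * u + 1)) ∧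
    (∀ᵐ x : ℝ, 0 < x → ∀ k m u v : ℕ, 2 ≤ k → 2 ≤ m → 1 ≤ u → 1 ≤ v →
      (1 - 1 / (k : ℝ)) ^ u + (1 - 1 / (m : ℝ)) ^ v < 1 → Rep (Sums m v) x k (2 * u + 1)) ∧
    (∀ᵐ x : ℝ, 0 < x → ∀ (k : ℕ) (ε : ℝ), 2 ≤ k → 0 < ε → ε < 1 →
      Rep (Sums k ⌈ε * k⌉₊) x k (2 * ⌈(k : ℝ) * Real.log (2 / ε)⌉₊ + 1)) := by
  have h2 : ∀ᵐ x : ℝ, 0 < x → ∀ k m u v : ℕ, 2 ≤ k → 2 ≤ m → 1 ≤ u → 1 ≤ v →
      (1 - 1 / (k : ℝ)) ^ u + (1 - 1 / (m : ℝ)) ^ v < 1 → Rep (Sums m v) x k (2 * u + 1) := by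
    have h3 : ∀ᵐ x : ℝ, ∀ (d v : ℕ) (q : ℚ), 1 ≤ d → (q : ℝ) < 1 - (1 - 1 / ((d : ℝ) + 1)) ^ (v + 1) → 0 < x →
        ∀ k u : ℕ, 2 ≤ k → 1 ≤ u → (1 - 1 / (k : ℝ)) ^ u < q → Rep (Sums (d + 1) (v + 1)) x k (2 * u + 1) := by
      rw [ae_all_iff]; intro d
      rw [ae_all_iff]; intro v
      rw [ae_all_iff]; intro q
      by_cases hd : 1 ≤ d
      · by_cases hq : (q : ℝ) < 1 - (1 - 1 / ((d : ℝ) + 1)) ^ (v + 1)
        · have h4 := Pool.Agent.Zk40.D.count_sums d hd v q hq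
          filter_upwards [Pool.Agent.Zk40.D.main_all _ q h4] with x hx _ _ hx0 k u hk hu hlt
          refine (rep_of _ _ _ _ (hx hx0 k u hk hu hlt)).mono ?_
          rintro n ⟨y, _, hy⟩
          exact ⟨y, hy⟩
        · exact ae_of_all _ fun x _ h => absurd h hq
      · exact ae_of_all _ fun x h => absurd h hd
    filter_upwards [h3] with x hx hx0 k m u v hk hm hu hv hlt
    obtain ⟨d, rfl⟩ : ∃ d, m = d + 1 := ⟨m - 1, by omega⟩
    obtain ⟨v', rfl⟩ : ∃ v', v = v' + 1 := ⟨v - 1, by omega⟩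
    obtain ⟨q, hq1, hq2⟩ := exists_rat_btwn (show (1 - 1 / (k : ℝ)) ^ u < 1 - (1 - 1 / ((d + 1 : ℕ) : ℝ)) ^ (v' + 1) by linarith)
    exact hx d v' q (by omega) (by push_cast at hq2; exact hq2) hx0 k u hk hu hq1
  refine ⟨?_, h2, ?_⟩
  · intro B γ hγ0 hγ1 hB
    have hcard : ∀ N : ℕ, ((B ∩ Set.Icc 1 N).ncard : ℝ) = ((Pool.Agent.Zk40.D.Bf B N).card : ℝ) := by
      classical
      intro N
      have : B ∩ Set.Icc 1 N = ((Pool.Agent.Zk40.D.Bf B N : Finset ℕ) : Set ℕ) := by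
        ext n
        unfold Pool.Agent.Zk40.D.Bf
        rw [Finset.mem_coe, Finset.mem_filter, Finset.mem_Icc, Set.mem_inter_iff, Set.mem_Icc]
        tauto
      rw [this, Set.ncard_coe_finset]
    simp_rw [hcard] at hB
    filter_upwards [Pool.Agent.Zk40.D.main_all B γ hB] with x hx hx0 k hk
    have hu : ∀ u : ℕ, (1 - 1 / (k : ℝ)) ^ u < γ → Rep B x k (2 * u + 1) := by
      intro u hu
      rcases Nat.eq_zero_or_pos u with h | h
      · rw [h, pow_zero] at hu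
        linarith
      · exact rep_of _ _ _ _ (hx hx0 k u hk h hu)
    refine ⟨hu _ ?_, hu⟩
    have hk0 : (0 : ℝ) < k := by exact_mod_cast (by omega : 0 < k)
    have hl : 0 < Real.log (1 / γ) := Real.log_pos (by rw [lt_div_iff₀ hγ0]; linarith)
    exact pow_lt k _ hk (Nat.one_le_iff_ne_zero.2 (Nat.ceil_pos.2 (mul_pos hk0 hl)).ne') γ hγ0 (Nat.le_ceil _)
  · filter_upwards [h2] with x hx hx0 k ε hk hε0 hε1
    have hk0 : (0 : ℝ) < k := by exact_mod_cast (by omega : 0 < k)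
    have hl : 0 < Real.log (2 / ε) := Real.log_pos (by rw [lt_div_iff₀ hε0]; linarith)
    have hu : 1 ≤ ⌈(k : ℝ) * Real.log (2 / ε)⌉₊ := Nat.ceil_pos.2 (mul_pos hk0 hl)
    have hv : 1 ≤ ⌈ε * (k : ℝ)⌉₊ := Nat.ceil_pos.2 (mul_pos hε0 hk0)
    apply hx hx0 k k _ _ hk hk hu hv
    have e1 : (1 - 1 / (k : ℝ)) ^ ⌈(k : ℝ) * Real.log (2 / ε)⌉₊ < ε / 2 := by
      apply pow_lt k _ hk hu _ (by positivity)
      rw [show 1 / (ε / 2) = 2 / ε by field_simp]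
      exact Nat.le_ceil _
    have e2 : (1 - 1 / (k : ℝ)) ^ ⌈ε * (k : ℝ)⌉₊ < 1 / (1 + ε) := by
      apply pow_lt k _ hk hv _ (by positivity)
      refine le_trans ?_ (Nat.le_ceil _)
      rw [one_div_one_div, mul_comm ε]
      apply mul_le_mul_of_nonneg_left _ hk0.le
      have := Real.log_le_sub_one_of_pos (show 0 < 1 + ε by linarith)
      linarith
    have e3 : 1 / (1 + ε) ≤ 1 - ε / 2 := by
      rw [div_le_iff₀ (by linarith)]
      nlinarith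
    linarith

end Pool.Agent.Results.MP_45c923_nt.DilatedSets
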