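import Pool.Agent.Zk66.WarMain

/-!
# MP_45c923_nt, Q1: the conjectured order `O(k)` with one additional summand `⌊m ^ c⌋`, for all mixed exponents

Let `c > 1` be any real number which is not an integer (arbitrarily large, for example `100.5`). There is `C = C(c)` such that for
every `k ≥ 2` every large integer is the sum of `⌈C k⌉` `k`-th powers and of ONE number `⌊m ^ c⌋`, `m` a natural number. Without the
additional summand this is the conjecture `G(k) = O(k)`; the known bound is `(1 + o(1)) k log k`. There is no exceptional `k` and no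
exceptional parameter.

More generally the exponents can be mixed, and the variables restricted to thin sets: there are `C` and `η > 0`, which depend on `c`
only, such that for all exponents `k_1, …, k_s ≥ 2` with `1 / k_1 + ⋯ + 1 / k_s ≥ C` and all sets `U_1, …, U_s` of natural numbers with
at least `Y ^ (1 - η)` elements in `(Y, 2 Y]` for large `Y` (for example all natural numbers, the primes, …), every large integer is
of the form `⌊m ^ c⌋ + x_1 ^ k_1 + ⋯ + x_s ^ k_s` with `x_i ∈ U_i`. (A sum of this kind can represent all large integers only if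
`1 / c + 1 / k_1 + ⋯ + 1 / k_s ≥ 1`, so up to the constant the condition is optimal.)

Proof. The circle method without major arcs: at ALL frequencies the exponential sum over `⌊m ^ c⌋`, `M < m ≤ 4 M`, differs from its
average over a window of length `M ^ (c - 1)` by at most `M ^ (1 - σ)`, `σ = σ(c) > 0`; so by Parseval's identity every large integer
is of the form `⌊m ^ c⌋ + a + b`, with `a`, `b` from arbitrary sets with at least `N ^ (1 - τ)` elements up to `N`. The sums of the
`x_i ^ k_i` over the first half, and over the second half, of the indices are such sets (diminishing ranges of Hardy and Littlewood).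
The exponential sums over `⌊m ^ c⌋` and the comparison with a window are those of helper40 (`Agent/Zk40/W`).
-/

set_option autoImplicit false

namespace Pool.Agent.Results.MP_45c923_nt.OneFixedSummand

open Finset

/-- `U` has at least `Y ^ (1 - η)` elements in `(Y, 2 Y]`, for all large `Y`. -/
def ManyElements (η : ℝ) (U : Set ℕ) : Prop :=
  ∃ Y₀ : ℕ, ∀ Y : ℕ, Y₀ ≤ Y → (Y : ℝ) ^ (1 - η) ≤ (U ∩ Set.Ioc Y (2 * Y)).ncard

/-- **Theorem.** Let `c > 1` be a real number which is not an integer. There are `C, η > 0` with the following property. Let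
`k_1, …, k_s ≥ 2` be exponents with `∑ 1 / k_i ≥ C` and let `U_1, …, U_s` be sets of natural numbers which have at least
`Y ^ (1 - η)` elements in `(Y, 2 Y]` for all large `Y`. Every large integer `n` is of the form `⌊m ^ c⌋ + ∑ x_i ^ k_i` with a natural
number `m` and `x_i ∈ U_i`. -/
theorem result (c : ℝ) (hc : 1 < c) (hc' : ∀ j : ℕ, c ≠ j) : ∃ C η : ℝ, 0 < C ∧ 0 < η ∧
    ∀ (s : ℕ) (k : Fin s → ℕ) (U : Fin s → Set ℕ), (∀ i, 2 ≤ k i) → (∀ i, ManyElements η (U i)) → C ≤ ∑ i, 1 / (k i : ℝ) →
      ∃ n₀ : ℕ, ∀ n : ℕ, n₀ ≤ n → ∃ (m : ℕ) (x : Fin s → ℕ), (∀ i, x i ∈ U i) ∧ (n : ℤ) = ⌊(m : ℝ) ^ c⌋ + ∑ i, (x i : ℤ) ^ k i := by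
  classical
  obtain ⟨C, η, hC, hη, h⟩ := Pool.Agent.Zk66.WarMain.mixed c hc hc'
  refine ⟨C, η, hC, hη, fun s k U hk hU hs => ?_⟩
  have hU' : ∀ i, Pool.Agent.Zk66.Mix.Dn (1 - η) (U i) := by
    intro i
    obtain ⟨Y₀, hY⟩ := hU i
    refine ⟨Y₀, fun Y hY0 => (hY Y hY0).trans (le_of_eq ?_)⟩
    have e : U i ∩ Set.Ioc Y (2 * Y) = ((((Ioc Y (2 * Y)).filter (· ∈ U i)) : Finset ℕ) : Set ℕ) := by
      ext y
      simp only [Set.mem_inter_iff, Set.mem_Ioc, coe_filter, mem_Ioc, Set.mem_ofPred_eq]
      tauto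
    rw [e, Set.ncard_coe_finset]
  obtain ⟨n₀, hn₀⟩ := Filter.eventually_atTop.1 (h s k U hk hU' hs)
  refine ⟨n₀, fun n hn => ?_⟩
  obtain ⟨m, x, hx, hm⟩ := hn₀ n hn
  refine ⟨m, x, hx, ?_⟩
  have e : (⌊(m : ℝ) ^ c⌋ : ℤ) = (Pool.Agent.Zk40.W.wt c m : ℤ) := by
    have := Pool.Agent.Zk40.W.wt_floor c m
    exact_mod_cast this
  rw [e, hm]
  push_cast
  ring

end Pool.Agent.Results.MP_45c923_nt.OneFixedSummand
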