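import Pool.Agent.Zk40.V.All

/-!
# MP_45c923_nt, Q1: linear bounds in Waring's problem with a generic shift, and for generic polynomials of degree `k`

For a real `α ≥ 0` let `G α k` be the least `s` such that every large integer is a sum of `s` numbers `⌊(x + α) ^ k⌋`,
`x` a natural number; `G 0 k` is Waring's function `G(k)`. We prove `k ≤ G α k ≤ 2.8 k + 14` for all `k ≥ 2`, for almost
every `α ≥ 0`. More generally, let `F(α, x)` be a real polynomial of degree `k` in `x` with a constant positive leading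
coefficient and let `j ≥ 1` be the largest exponent of `x` whose coefficient is not constant as a polynomial of `α`; for
almost every real `α` every large integer is a sum of `4 ⌈k log (2 k / j)⌉ + 2` numbers `⌊F(α, x)⌋`.
-/

namespace Pool.Agent.Results.MP_45c923_nt.ShiftedPowers

open Finset MeasureTheory Filter
open Pool.Agent.Zk40.V (Fam master u_ok pv wp)

/-- the value `F(α, x)` of a polynomial in `x` whose coefficients are real polynomials in `α` -/
noncomputable def val (F : Polynomial (Polynomial ℝ)) (α x : ℝ) : ℝ := (F.map (Polynomial.evalRingHom α)).eval x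

/-- For every `X`, every sufficiently large natural number is a sum of `s` numbers `⌊f x⌋` with natural `x ≥ X`. -/
def Sums (f : ℝ → ℝ) (s : ℕ) : Prop :=
  ∀ X : ℕ, ∃ n₀ : ℕ, ∀ n : ℕ, n₀ ≤ n → ∃ x : Fin s → ℕ, (∀ i, X ≤ x i) ∧ (n : ℤ) = ∑ i, ⌊f (x i)⌋

/-- Every sufficiently large natural number is a sum of `s` numbers `⌊(x + α) ^ k⌋` with natural numbers `x`. -/
def Represents (α : ℝ) (k s : ℕ) : Prop :=
  ∃ n₀ : ℕ, ∀ n : ℕ, n₀ ≤ n → ∃ x : Fin s → ℕ, n = ∑ i, ⌊((x i : ℝ) + α) ^ k⌋₊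

/-- Waring's function with the shift `α`: the least `s` such that `Represents α k s`. -/
noncomputable def G (α : ℝ) (k : ℕ) : ℕ := sInf {s | Represents α k s}

lemma rep_zero (k s : ℕ) : Represents 0 k s ↔ ∃ n₀ : ℕ, ∀ n : ℕ, n₀ ≤ n → ∃ x : Fin s → ℕ, n = ∑ i, x i ^ k := by
  unfold Represents
  have h : ∀ x : ℕ, ⌊((x : ℝ) + 0) ^ k⌋₊ = x ^ k := by
    intro x
    rw [add_zero, ← Nat.cast_pow, Nat.floor_natCast]
  simp_rw [h]

lemma lower (w : ℕ → ℕ) (k s : ℕ) (hk : 1 ≤ k) (hw : ∀ x, x ^ k ≤ w x)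
    (h : ∃ n₀ : ℕ, ∀ n : ℕ, n₀ ≤ n → ∃ x : Fin s → ℕ, n = ∑ i, w (x i)) : k ≤ s := by
  by_contra hcon
  push Not at hcon
  obtain ⟨n₀, hn₀⟩ := h
  choose! x hx using hn₀
  obtain ⟨T, hT⟩ : ∃ T, T = n₀ + 2 := ⟨_, rfl⟩
  have hbd : ∀ n ∈ Ico n₀ (T ^ k), ∀ i, x n i < T := by
    intro n hn i
    rw [mem_Ico] at hn
    have h1 := hx n hn.1
    have h2 : w (x n i) ≤ n := by
      conv_rhs => rw [h1]
      exact single_le_sum (f := fun i => w (x n i)) (fun _ _ => Nat.zero_le _) (mem_univ i)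
    have h3 : x n i ^ k < T ^ k := by
      have := hw (x n i)
      omega
    exact lt_of_pow_lt_pow_left₀ k (Nat.zero_le _) h3
  have hcard : (Ico n₀ (T ^ k)).card ≤ (Fintype.piFinset fun _ : Fin s => range T).card := by
    apply card_le_card_of_injOn (fun n => x n)
    · intro n hn
      rw [mem_coe, Fintype.mem_piFinset]
      intro i
      rw [mem_range]
      exact hbd n hn i
    · intro a ha b hb hab
      rw [mem_coe, mem_Ico] at ha hb
      have h1 := hx a ha.1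
      have h2 := hx b hb.1
      simp only at hab
      rw [h1, h2, hab]
  rw [Nat.card_Ico, Fintype.card_piFinset] at hcard
  simp only [card_range, prod_const, card_univ, Fintype.card_fin] at hcard
  have h4 : T ^ s ≤ T ^ (k - 1) := Nat.pow_le_pow_right (by omega) (by omega)
  have h5 : T ^ k = T ^ (k - 1) * T := by rw [← pow_succ]; congr 1; omega
  have h6 : 1 ≤ T ^ (k - 1) := Nat.one_le_pow _ _ (by omega)
  have h7 : T ^ (k - 1) * T = T ^ (k - 1) + T ^ (k - 1) * (n₀ + 1) := by rw [hT]; ring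
  have h8 : n₀ + 1 ≤ T ^ (k - 1) * (n₀ + 1) := Nat.le_mul_of_pos_left _ h6
  omega

lemma rep_lower (α : ℝ) (hα : 0 ≤ α) (k s : ℕ) (hk : 1 ≤ k) (h : Represents α k s) : k ≤ s := by
  apply lower (fun x => ⌊((x : ℝ) + α) ^ k⌋₊) k s hk _ h
  intro x
  apply Nat.le_floor
  push_cast
  exact pow_le_pow_left₀ (Nat.cast_nonneg _) (by linarith) k

lemma val_eq (F : Polynomial (Polynomial ℝ)) (k : ℕ) (hF : F.natDegree ≤ k) (α x : ℝ) :
    val F α x = pv k (fun i => (F.coeff i).eval α) x := by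
  unfold val pv
  rw [Polynomial.eval_eq_sum_range' (n := k + 1) (lt_of_le_of_lt Polynomial.natDegree_map_le (by omega))]
  apply sum_congr rfl
  intro i _
  rw [Polynomial.coeff_map]
  simp

/-- the general theorem -/
lemma general (k j : ℕ) (F : Polynomial (Polynomial ℝ)) (l : ℝ) (hj : 1 ≤ j) (hjk : j < k) (hdeg : F.natDegree = k)
    (hl : 0 < l) (hlead : F.coeff k = Polynomial.C l) (hconst : ∀ i, j < i → i < k → (F.coeff i).natDegree = 0)
    (hvar : (F.coeff j).natDegree ≠ 0) :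
    ∀ᵐ α : ℝ, Sums (val F α) (4 * ⌈(k : ℝ) * Real.log (2 * k / j)⌉₊ + 2) := by
  obtain ⟨d, rfl⟩ : ∃ d, k = d + 1 := ⟨k - 1, by omega⟩
  obtain ⟨e, rfl⟩ : ∃ e, j = e + 1 := ⟨j - 1, by omega⟩
  have hfam : Fam d e F.coeff := by
    refine ⟨by omega, ⟨l, hl, hlead⟩, ?_, ?_⟩
    · intro i h1 h2
      rcases h2.eq_or_lt with h | h
      · rw [h, hlead, Polynomial.derivative_C]
      · exact Polynomial.derivative_of_natDegree_zero (hconst i h1 h)
    · intro h
      exact hvar (Polynomial.derivative_eq_zero.1 h)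
  obtain ⟨u, hu⟩ : ∃ u : ℕ, u = ⌈((d : ℝ) + 1) * Real.log (2 * ((d : ℝ) + 1) / (e + 1))⌉₊ := ⟨_, rfl⟩
  have hu1 : 1 ≤ u := by
    apply Nat.one_le_iff_ne_zero.2
    rw [hu]
    apply (Nat.ceil_pos.2 _).ne'
    apply mul_pos (by positivity)
    apply Real.log_pos
    rw [one_lt_div (by positivity)]
    have : (e : ℝ) + 1 ≤ d + 1 := by
      have : e + 1 ≤ d + 1 := by omega
      exact_mod_cast this
    linarith [(Nat.cast_nonneg d : (0 : ℝ) ≤ d)]
  have hu' : ⌈((d + 1 : ℕ) : ℝ) * Real.log (2 * ((d + 1 : ℕ) : ℝ) / ((e + 1 : ℕ) : ℝ))⌉₊ = u := by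
    rw [hu]; push_cast; rfl
  rw [hu']
  filter_upwards [master d e F.coeff hfam u hu1 (by rw [hu]; exact u_ok d e)] with α hα X
  obtain ⟨N₀, hN₀⟩ := hα X
  refine ⟨N₀, fun n hn => ?_⟩
  obtain ⟨t, ht1, ht2⟩ := hN₀ n hn
  refine ⟨t, fun i => (ht1 i).1, ?_⟩
  rw [← ht2]
  push_cast
  apply sum_congr rfl
  intro i _
  rw [val_eq F (d + 1) hdeg.le]
  unfold wp
  exact Int.natCast_floor_eq_floor (ht1 i).2

/-- the shifted power -/
lemma shift (k : ℕ) (hk : 2 ≤ k) :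
    ∀ᵐ α : ℝ, Sums (fun x => (x + α) ^ k) (4 * ⌈(k : ℝ) * Real.log (2 * k / ((k - 1 : ℕ) : ℝ))⌉₊ + 2) := by
  have hv : ∀ α x : ℝ, val ((Polynomial.X + Polynomial.C Polynomial.X) ^ k) α x = (x + α) ^ k := by
    intro α x
    unfold val
    simp
  have h := general k (k - 1) ((Polynomial.X + Polynomial.C Polynomial.X) ^ k) 1 (by omega) (by omega)
    (by rw [Polynomial.natDegree_pow, Polynomial.natDegree_X_add_C, mul_one]) one_pos
    (by rw [Polynomial.coeff_X_add_C_pow]; simp)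
    (fun i h1 h2 => by omega)
    (by
      rw [Polynomial.coeff_X_add_C_pow, show k - (k - 1) = 1 by omega, pow_one]
      have h1 : (Polynomial.X * ((k.choose (k - 1) : ℕ) : Polynomial ℝ)) = Polynomial.C ((k.choose (k - 1) : ℕ) : ℝ) * Polynomial.X := by
        rw [mul_comm]; simp
      rw [h1, Polynomial.natDegree_C_mul_X]
      · norm_num
      · have : 0 < k.choose (k - 1) := Nat.choose_pos (by omega)
        exact_mod_cast this.ne')
  filter_upwards [h] with α hα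
  have : (fun x : ℝ => (x + α) ^ k) = val ((Polynomial.X + Polynomial.C Polynomial.X) ^ k) α := by
    funext x; rw [hv]
  rw [this]
  exact hα

/-- At `α = 0` the notion is the one of Waring's problem; `s ≥ k` is necessary for every `α ≥ 0`; for almost every
`α ≥ 0` one has `k ≤ G α k ≤ 4 ⌈k log (2 k / (k - 1))⌉ + 2 ≤ 2.8 k + 14` for all `k ≥ 2`; and this is the case
`F = (x + α) ^ k`, `j = k - 1`, of the general theorem on polynomials `F(α, x)` (another case is `F = x ^ k + α x ^ j`). -/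
theorem result :
    (∀ k s : ℕ, Represents 0 k s ↔ ∃ n₀ : ℕ, ∀ n : ℕ, n₀ ≤ n → ∃ x : Fin s → ℕ, n = ∑ i, x i ^ k) ∧
    (∀ α : ℝ, 0 ≤ α → ∀ k s : ℕ, 1 ≤ k → Represents α k s → k ≤ s) ∧
    (∀ᵐ α : ℝ, 0 ≤ α → ∀ k : ℕ, 2 ≤ k → Represents α k (4 * ⌈(k : ℝ) * Real.log (2 * k / ((k - 1 : ℕ) : ℝ))⌉₊ + 2) ∧
      k ≤ G α k ∧ G α k ≤ 4 * ⌈(k : ℝ) * Real.log (2 * k / ((k - 1 : ℕ) : ℝ))⌉₊ + 2 ∧ (G α k : ℝ) ≤ 14 / 5 * k + 14) ∧
    (∀ (k j : ℕ) (F : Polynomial (Polynomial ℝ)) (l : ℝ), 1 ≤ j → j < k → F.natDegree = k → 0 < l →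
      F.coeff k = Polynomial.C l → (∀ i, j < i → i < k → (F.coeff i).natDegree = 0) → (F.coeff j).natDegree ≠ 0 →
      ∀ᵐ α : ℝ, Sums (val F α) (4 * ⌈(k : ℝ) * Real.log (2 * k / j)⌉₊ + 2)) := by
  refine ⟨rep_zero, rep_lower, ?_, general⟩
  · have h1 : ∀ᵐ α : ℝ, ∀ k : ℕ, 2 ≤ k →
        Sums (fun x => (x + α) ^ k) (4 * ⌈(k : ℝ) * Real.log (2 * k / ((k - 1 : ℕ) : ℝ))⌉₊ + 2) := by
      rw [ae_all_iff]
      intro k
      by_cases hk : 2 ≤ k
      · filter_upwards [shift k hk] with α hα _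
        exact hα
      · exact ae_of_all _ fun α h => absurd h hk
    filter_upwards [h1] with α hα hα0 k hk
    obtain ⟨u, hu⟩ : ∃ u : ℕ, u = ⌈(k : ℝ) * Real.log (2 * k / ((k - 1 : ℕ) : ℝ))⌉₊ := ⟨_, rfl⟩
    have hrep : Represents α k (4 * u + 2) := by
      have h2 := hα k hk
      rw [← hu] at h2
      obtain ⟨n₀, hn₀⟩ := h2 0
      refine ⟨n₀, fun n hn => ?_⟩
      obtain ⟨x, _, hx⟩ := hn₀ n hn
      refine ⟨x, ?_⟩
      have h3 : (n : ℤ) = ((∑ i, ⌊((x i : ℝ) + α) ^ k⌋₊ : ℕ) : ℤ) := by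
        rw [hx]
        push_cast
        apply sum_congr rfl
        intro i _
        exact (Int.natCast_floor_eq_floor (by positivity)).symm
      exact_mod_cast h3
    rw [← hu]
    have hne : {s | Represents α k s}.Nonempty := ⟨_, hrep⟩
    have hG1 : Represents α k (G α k) := Nat.sInf_mem hne
    have hG2 : G α k ≤ 4 * u + 2 := Nat.sInf_le hrep
    refine ⟨hrep, rep_lower α hα0 k _ (by omega) hG1, hG2, ?_⟩
    have h3 : (G α k : ℝ) ≤ 4 * u + 2 := by exact_mod_cast hG2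
    obtain ⟨m, rfl⟩ : ∃ m, k = m + 2 := ⟨k - 2, by omega⟩
    have hm : (0 : ℝ) ≤ m := Nat.cast_nonneg _
    have e1 : (((m + 2 - 1 : ℕ)) : ℝ) = m + 1 := by
      rw [show m + 2 - 1 = m + 1 by omega]; push_cast; ring
    rw [e1] at hu
    push_cast at hu ⊢
    have e2 : 2 * ((m : ℝ) + 2) / (m + 1) = 2 * (1 + 1 / (m + 1)) := by field_simp; ring
    have e3 : Real.log (2 * ((m : ℝ) + 2) / (m + 1)) ≤ 7 / 10 + 1 / (m + 1) := by
      rw [e2, Real.log_mul (by norm_num) (by positivity)]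
      have f1 : Real.log (1 + 1 / ((m : ℝ) + 1)) ≤ 1 / (m + 1) := by
        have := Real.log_le_sub_one_of_pos (show 0 < 1 + 1 / ((m : ℝ) + 1) by positivity)
        linarith
      linarith [Real.log_two_lt_d9]
    have e0 : 0 ≤ Real.log (2 * ((m : ℝ) + 2) / (m + 1)) := by
      rw [e2]
      apply Real.log_nonneg
      have : 0 ≤ 1 / ((m : ℝ) + 1) := by positivity
      linarith
    have e4 : ((m : ℝ) + 2) * (1 / (m + 1)) ≤ 2 := by
      rw [mul_one_div, div_le_iff₀ (by positivity)]; linarith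
    have e5 : ((m : ℝ) + 2) * Real.log (2 * ((m : ℝ) + 2) / (m + 1)) ≤ 7 / 10 * (m + 2) + 2 := by
      have := mul_le_mul_of_nonneg_left e3 (show 0 ≤ (m : ℝ) + 2 by linarith)
      linarith
    have e6 : (u : ℝ) < ((m : ℝ) + 2) * Real.log (2 * ((m : ℝ) + 2) / (m + 1)) + 1 := by
      rw [hu]; exact Nat.ceil_lt_add_one (by positivity)
    linarith

end Pool.Agent.Results.MP_45c923_nt.ShiftedPowers
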